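import Pool.Agent.TH682.DP.Log

/-!
# Pairs separated by half-spaces can be learned online
-/

set_option autoImplicit false

namespace Pool.Agent.TH682.DP

open Pool.Agent.NPC
open Pool.Agent.TH684.EX (poly_of_polyTime)

/-- The positive part of the sum. -/
def sP (k : List Bool → ℕ × ℕ) (l : List (List Bool × Bool)) (x : List Bool) : ℕ :=
  (l.map (fun e => if e.2 = true then (k (pairBits e.1 x)).1 else (k (pairBits e.1 x)).2)).sum

/-- The negative part of the sum. -/
def sQ (k : List Bool → ℕ × ℕ) (l : List (List Bool × Bool)) (x : List Bool) : ℕ :=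
  (l.map (fun e => if e.2 = true then (k (pairBits e.1 x)).2 else (k (pairBits e.1 x)).1)).sum

/-- The learner. -/
def cK (k : List Bool → ℕ × ℕ) (z : List Bool) : List Bool :=
  [decide (sQ k ((unbits (List (List Bool × Bool) × List Bool) z).getD ([], [])).1
      ((unbits (List (List Bool × Bool) × List Bool) z).getD ([], [])).2 <
    sP k ((unbits (List (List Bool × Bool) × List Bool) z).getD ([], [])).1
      ((unbits (List (List Bool × Bool) × List Bool) z).getD ([], [])).2)]

theorem cK_bits (k : List Bool → ℕ × ℕ) (l : List (List Bool × Bool)) (x : List Bool) :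
    cK k (bits (l, x)) = [true] ↔ sQ k l x < sP k l x := by
  unfold cK
  rw [unbits_bits]
  simp

theorem cK_poly {k : List Bool → ℕ × ℕ} (hk : Poly k) : Poly (cK k) := by
  have e0 : Poly (fun z : List Bool =>
      (unbits (List (List Bool × Bool) × List Bool) z).getD ([], [])) :=
    NPC.Poly.optGetD poly_unbits (NPC.Poly.const _)
  have a1 : Poly (fun q : (List (List Bool × Bool) × List Bool) × (List Bool × Bool) => q.2.1) :=
    NPC.Poly.fst (NPC.Poly.snd NPC.Poly.id)
  have a2 : Poly (fun q : (List (List Bool × Bool) × List Bool) × (List Bool × Bool) => q.2.2) :=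
    NPC.Poly.snd (NPC.Poly.snd NPC.Poly.id)
  have a3 : Poly (fun q : (List (List Bool × Bool) × List Bool) × (List Bool × Bool) => q.1.2) :=
    NPC.Poly.snd (NPC.Poly.fst NPC.Poly.id)
  have a4 : Poly (fun q : (List (List Bool × Bool) × List Bool) × (List Bool × Bool) =>
      k (pairBits q.2.1 q.1.2)) := hk.comp (Pool.Agent.H622R2.poly_pairBits a1 a3)
  have e1 : Poly (fun d : List (List Bool × Bool) × List Bool => d.1) :=
    NPC.Poly.fst NPC.Poly.id
  have e2 : Poly (fun d : List (List Bool × Bool) × List Bool => sP k d.1 d.2) :=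
    NPC.Poly.sum (NPC.Poly.map (l := fun d : List (List Bool × Bool) × List Bool => d.1)
      (F := fun d e => if e.2 = true then (k (pairBits e.1 d.2)).1 else (k (pairBits e.1 d.2)).2)
      e1 (NPC.Poly.ite (NPC.Poly.decide_eq a2 (NPC.Poly.const true)) (NPC.Poly.fst a4)
        (NPC.Poly.snd a4)))
  have e3 : Poly (fun d : List (List Bool × Bool) × List Bool => sQ k d.1 d.2) :=
    NPC.Poly.sum (NPC.Poly.map (l := fun d : List (List Bool × Bool) × List Bool => d.1)
      (F := fun d e => if e.2 = true then (k (pairBits e.1 d.2)).2 else (k (pairBits e.1 d.2)).1)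
      e1 (NPC.Poly.ite (NPC.Poly.decide_eq a2 (NPC.Poly.const true)) (NPC.Poly.snd a4)
        (NPC.Poly.fst a4)))
  exact NPC.Poly.cons (NPC.Poly.decide_lt (e3.comp e0) (e2.comp e0)) (NPC.Poly.const [])

section novikoff

variable {E : Type} [NormedAddCommGroup E] [InnerProductSpace ℝ E]

/-- The sign of a label. -/
def sg (b : Bool) : ℝ := if b = true then 1 else -1

/-- The sum of the examples. -/
noncomputable def wv (φ : List Bool → E) : List (List Bool × Bool) → E
  | [] => 0
  | e :: l => wv φ l + sg e.2 • φ e.1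

theorem inner_wv {φ : List Bool → E} {k : List Bool → ℕ × ℕ} {n : ℕ}
    (hφ : ∀ x y : List Bool, x.length = n → y.length = n →
      inner ℝ (φ x) (φ y) = ((k (pairBits x y)).1 : ℝ) - ((k (pairBits x y)).2 : ℝ))
    {x : List Bool} (hx : x.length = n) : ∀ l : List (List Bool × Bool),
      (∀ e ∈ l, e.1.length = n) → inner ℝ (wv φ l) (φ x) = (sP k l x : ℝ) - (sQ k l x : ℝ)
  | [], _ => by simp [wv, sP, sQ]
  | (y, b) :: l, h => by
    have h1 := inner_wv hφ hx l (fun e he => h e (List.mem_cons_of_mem _ he))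
    have h2 := hφ y x (h (y, b) List.mem_cons_self) hx
    have h3 : sP k ((y, b) :: l) x = (if b = true then (k (pairBits y x)).1 else
        (k (pairBits y x)).2) + sP k l x := by
      unfold sP
      rw [List.map_cons, List.sum_cons]
    have h4 : sQ k ((y, b) :: l) x = (if b = true then (k (pairBits y x)).2 else
        (k (pairBits y x)).1) + sQ k l x := by
      unfold sQ
      rw [List.map_cons, List.sum_cons]
    rw [wv, inner_add_left, h1, inner_smul_left, h2, h3, h4]
    cases b
    · simp [sg]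
      ring
    · simp [sg]
      ring

theorem novikoff {A B : Set (List Bool)} {φ : List Bool → E} {u : E} {k : List Bool → ℕ × ℕ}
    {n : ℕ} {M : ℝ}
    (hφ : ∀ x y : List Bool, x.length = n → y.length = n →
      inner ℝ (φ x) (φ y) = ((k (pairBits x y)).1 : ℝ) - ((k (pairBits x y)).2 : ℝ))
    (hA : ∀ x ∈ A, x.length = n → 1 ≤ inner ℝ u (φ x))
    (hB : ∀ x ∈ B, x.length = n → inner ℝ u (φ x) ≤ -1)
    (hM : ∀ x : List Bool, x.length = n → ‖u‖ ^ 2 * ‖φ x‖ ^ 2 ≤ M) :
    ∀ l : List (List Bool × Bool), (∀ e ∈ l, Ok A B e ∧ e.1.length = n) → Mist (cK k) l →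
      (l.length : ℝ) ≤ inner ℝ u (wv φ l) ∧ ‖u‖ ^ 2 * ‖wv φ l‖ ^ 2 ≤ l.length * M
  | [], _, _ => by simp [wv]
  | (x, b) :: l, h, hm => by
    obtain ⟨h1, h2⟩ := novikoff hφ hA hB hM l (fun e he => h e (List.mem_cons_of_mem _ he)) hm.2
    obtain ⟨h3, h4⟩ := h (x, b) List.mem_cons_self
    have h5 := inner_wv hφ h4 l (fun e he => (h e (List.mem_cons_of_mem _ he)).2)
    have h6 := hm.1
    simp only at h6 h5 h4
    rw [cK_bits] at h6
    have h7 : sg b * inner ℝ (wv φ l) (φ x) ≤ 0 := by
      rw [h5]
      cases b with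
      | true =>
        have h8 : ¬ sQ k l x < sP k l x := fun h => by
          have := h6.1 h
          simp at this
        have h9 : (sP k l x : ℝ) ≤ sQ k l x := by exact_mod_cast not_lt.1 h8
        simp only [sg, if_true]
        linarith
      | false =>
        have h8 : (sQ k l x : ℝ) < sP k l x := by exact_mod_cast h6.2 rfl
        simp only [sg, Bool.false_eq_true, if_false]
        linarith
    have h8 : 1 ≤ sg b * inner ℝ u (φ x) := by
      cases b with
      | true =>
        simp only [sg, if_true, one_mul]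
        exact hA x (h3.1 rfl) h4
      | false =>
        simp only [sg, Bool.false_eq_true, if_false]
        have := hB x (h3.2 rfl) h4
        linarith
    have hsg : sg b ^ 2 = 1 := by
      cases b <;> simp [sg]
    rw [wv, List.length_cons]
    refine ⟨?_, ?_⟩
    · rw [inner_add_right, inner_smul_right]
      push_cast
      linarith
    · have h9 : ‖wv φ l + sg b • φ x‖ ^ 2 ≤ ‖wv φ l‖ ^ 2 + ‖φ x‖ ^ 2 := by
        rw [norm_add_sq_real, inner_smul_right, norm_smul, mul_pow, Real.norm_eq_abs, sq_abs, hsg]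
        linarith
      have h10 := hM x h4
      have h11 : 0 ≤ ‖u‖ ^ 2 := by positivity
      have h12 := mul_le_mul_of_nonneg_left h9 h11
      change ‖u‖ ^ 2 * ‖wv φ l + sg b • φ x‖ ^ 2 ≤ _
      push_cast
      linarith [mul_add (‖u‖ ^ 2) (‖wv φ l‖ ^ 2) (‖φ x‖ ^ 2), add_mul (l.length : ℝ) 1 M]

end novikoff

/-- **Pairs separated by half-spaces can be learned online.** -/
theorem learnable_of_halfSpace {A B : Set (List Bool)} (h : HalfSpaceSeparated A B) :
    Learnable A B := by
  obtain ⟨k, b, hk, hN⟩ := h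
  have hkp : Poly k := poly_of_polyTime hk
  refine ⟨cK k, Polynomial.X ^ b + Polynomial.C b, PIso.poly_iff.1 (cK_poly hkp),
    fun n l hl hm => ?_⟩
  obtain ⟨E, i1, i2, φ, u, hφ, hA, hB, hM⟩ := hN n
  obtain ⟨h1, h2⟩ := novikoff hφ hA hB hM l hl hm
  have h3 : (l.length : ℝ) ^ 2 ≤ l.length * ((n : ℝ) ^ b + b) := by
    have h4 : (inner ℝ u (wv φ l)) ^ 2 ≤ ‖u‖ ^ 2 * ‖wv φ l‖ ^ 2 := by
      rw [← mul_pow]
      exact sq_le_sq' (by
        have := abs_real_inner_le_norm u (wv φ l)
        have := neg_abs_le (inner ℝ u (wv φ l))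
        linarith) (real_inner_le_norm _ _)
    have h5 : (l.length : ℝ) ^ 2 ≤ (inner ℝ u (wv φ l)) ^ 2 :=
      pow_le_pow_left₀ (Nat.cast_nonneg _) h1 2
    linarith
  have h4 : (l.length : ℝ) ≤ (n : ℝ) ^ b + b := by
    rcases Nat.eq_zero_or_pos l.length with h5 | h5
    · rw [h5]
      push_cast
      positivity
    · have h6 : (0 : ℝ) < l.length := by exact_mod_cast h5
      nlinarith
  have h5 : l.length ≤ n ^ b + b := by exact_mod_cast h4
  simpa using h5

end Pool.Agent.TH682.DP
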