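import Pool.Agent.TH682.KD.Defs

/-!
# Separators of disjoint pairs, hard pairs, and online learning

Polynomial time is Mathlib's `Turing.TM2ComputableInPolyTime` (through `Pool.Agent.NPC.PolyTime`).
-/

set_option autoImplicit false

namespace Pool.Agent.TH682.DP

open Pool.Agent.NPC Pool.Agent.TH682.GD Pool.Agent.TH682.KD

/-- The separators of the pair `(A, B)`. -/
def IsSep (A B S : Set (List Bool)) : Prop := A ⊆ S ∧ B ⊆ Sᶜ

/-- The pair `(A, B)` is `NP`-hard: every language in `NP` is Cook reducible to every separator. -/
def HardPair (A B : Set (List Bool)) : Prop :=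
  ∀ L, InNP L → ∀ S, IsSep A B S → InPT S L

/-- The labelled string `e` is a correct example for the pair `(A, B)`: a string in `A` with the
label `true`, or a string in `B` with the label `false`. -/
def Ok (A B : Set (List Bool)) (e : List Bool × Bool) : Prop :=
  (e.2 = true → e.1 ∈ A) ∧ (e.2 = false → e.1 ∈ B)

/-- The list of labelled strings `l` (the last one first) is a sequence of mistakes of the learner
`c`: every string of the list is accepted by `c`, given the labelled strings that come earlier in
time (those after it in the list), if and only if its label is `false`. -/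
def Mist (c : List Bool → List Bool) : List (List Bool × Bool) → Prop
  | [] => True
  | e :: l => (c (bits (l, e.1)) = [true] ↔ e.2 = false) ∧ Mist c l

/-- The pair `(A, B)` can be learned online: there are a function `c`, computable in polynomial
time, and a polynomial `p` such that for every `n` every sequence of mistakes of `c` that consists
of correct examples of length `n` has at most `p n` members. -/
def Learnable (A B : Set (List Bool)) : Prop :=
  ∃ (c : List Bool → List Bool) (p : Polynomial ℕ), PolyTime c ∧
    ∀ (n : ℕ) (l : List (List Bool × Bool)), (∀ e ∈ l, Ok A B e ∧ e.1.length = n) → Mist c l →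
      l.length ≤ p.eval n

/-- The pair `(A, B)` is separated by permutation groups: for some function `f` that is computable
in polynomial time and for all `n` there are a number `N` and a subgroup `H` of the symmetric group
on `N` points such that for all strings `x` of length `n`: if `x ∈ A` then `f x` is the list of the
values of a member of `H`, and if `x ∈ B` then it is not. -/
def GroupSeparated (A B : Set (List Bool)) : Prop :=
  ∃ f : List Bool → List ℕ, PolyTime (fun z => bits (f z)) ∧
    ∀ n : ℕ, ∃ (N : ℕ) (H : Subgroup (Equiv.Perm (Fin N))),
      (∀ x ∈ A, x.length = n → ∃ σ ∈ H, vals σ = f x) ∧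
      (∀ x ∈ B, x.length = n → ¬ ∃ σ ∈ H, vals σ = f x)

/-- The pair `(A, B)` is separated by half-spaces with a polynomial margin, in Hilbert spaces with a
feasible kernel: for some function `k` that is computable in polynomial time, whose values are pairs
of natural numbers (each pair stands for the difference of its members), some `b` and for all `n`
there are a real inner product space `E`, vectors `φ x ∈ E` for the strings `x` of length `n` whose
inner products are the integers given by `k`, and a vector `u` such that `⟪u, φ x⟫ ≥ 1` if `x ∈ A`,
`⟪u, φ x⟫ ≤ -1` if `x ∈ B`, and `‖u‖² ‖φ x‖² ≤ n ^ b + b`. -/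
def HalfSpaceSeparated (A B : Set (List Bool)) : Prop :=
  ∃ (k : List Bool → ℕ × ℕ) (b : ℕ), PolyTime (fun z => bits (k z)) ∧
    ∀ n : ℕ, ∃ (E : Type) (_ : NormedAddCommGroup E) (_ : InnerProductSpace ℝ E)
      (φ : List Bool → E) (u : E),
      (∀ x y : List Bool, x.length = n → y.length = n →
        inner ℝ (φ x) (φ y) = ((k (pairBits x y)).1 : ℝ) - ((k (pairBits x y)).2 : ℝ)) ∧
      (∀ x ∈ A, x.length = n → 1 ≤ inner ℝ u (φ x)) ∧
      (∀ x ∈ B, x.length = n → inner ℝ u (φ x) ≤ -1) ∧
      (∀ x : List Bool, x.length = n → ‖u‖ ^ 2 * ‖φ x‖ ^ 2 ≤ (n : ℝ) ^ b + b)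

end Pool.Agent.TH682.DP
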