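import Pool.Agent.TH682.DP.Log

/-!
# Pairs separated by permutation groups can be learned online
-/

set_option autoImplicit false

namespace Pool.Agent.TH682.DP

open Pool.Agent.NPC Pool.Agent.H579R2.Spt
open Pool.Agent.TH682.GD hiding Good
open Pool.Agent.TH682.KD (isp isp_vals exists_of_isp isp_poly)
open Pool.Agent.TH684.EX (poly_of_polyTime)

/-- The table obtained from a list of strings. -/
def tb (f : List Bool → List ℕ) (l : List (List Bool)) : List (List ℕ) := tbl [] (l.reverse.map f)

theorem tb_cons (f : List Bool → List ℕ) (a : List Bool) (l : List (List Bool)) :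
    tb f (a :: l) = ins (tb f l) (f a) := by
  unfold tb
  rw [List.reverse_cons, List.map_append, tbl_append]
  rfl

/-- The prediction. -/
def cB (f : List Bool → List ℕ) (l : List (List Bool)) (x : List Bool) : Bool :=
  !decide (l = []) && (decide ((f x).length = (f (l.head?.getD [])).length) &&
    (isp (f x) && decide (key (sft (tb f l) (f x)) = none)))

/-- The positive examples. -/
def ps (l : List (List Bool × Bool)) : List (List Bool) :=
  (l.filter (fun e => e.2)).map Prod.fst

/-- The learner. -/
def cL (f : List Bool → List ℕ) (z : List Bool) : List Bool :=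
  [cB f (ps ((unbits (List (List Bool × Bool) × List Bool) z).getD ([], [])).1)
    ((unbits (List (List Bool × Bool) × List Bool) z).getD ([], [])).2]

theorem cL_bits (f : List Bool → List ℕ) (l : List (List Bool × Bool)) (x : List Bool) :
    cL f (bits (l, x)) = [true] ↔ cB f (ps l) x = true := by
  unfold cL
  rw [unbits_bits]
  simp

theorem cL_poly {f : List Bool → List ℕ} (hf : Poly f) : Poly (cL f) := by
  have e0 : Poly (fun z : List Bool =>
      (unbits (List (List Bool × Bool) × List Bool) z).getD ([], [])) :=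
    NPC.Poly.optGetD poly_unbits (NPC.Poly.const _)
  have e1 : Poly (fun d : List (List Bool) × List Bool => d.1) := NPC.Poly.fst NPC.Poly.id
  have e2 : Poly (fun d : List (List Bool) × List Bool => f d.2) :=
    hf.comp (NPC.Poly.snd NPC.Poly.id)
  have e3 : Poly (fun d : List (List Bool) × List Bool => f (d.1.head?.getD [])) :=
    hf.comp (NPC.Poly.optGetD (NPC.Poly.head? e1) (NPC.Poly.const _))
  have e4 : Poly (fun d : List (List Bool) × List Bool => tb f d.1) :=
    tbl_poly (NPC.Poly.map (l := fun d : List (List Bool) × List Bool => d.1.reverse)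
      (F := fun _ a => f a) (NPC.Poly.reverse e1) (hf.comp (NPC.Poly.snd NPC.Poly.id)))
  have e5 : Poly (fun d : List (List Bool) × List Bool => cB f d.1 d.2) := by
    refine NPC.Poly.and (NPC.Poly.not ?_) (NPC.Poly.and (NPC.Poly.decide_eq (NPC.Poly.length e2)
      (NPC.Poly.length e3)) (NPC.Poly.and (isp_poly e2) (NPC.Poly.decide_eq
        (key_poly (sft_poly e4 e2)) (NPC.Poly.const none))))
    exact (NPC.Poly.decide_eq e1 (NPC.Poly.const ([] : List (List Bool)))).congr fun _ =>
      decide_eq_decide.2 Iff.rfl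
  have e7 : Poly (fun l : List (List Bool × Bool) => l.filter (fun e => e.2)) :=
    NPC.Poly.filter (l := fun l : List (List Bool × Bool) => l)
      (p := fun (_ : List (List Bool × Bool)) (e : List Bool × Bool) => e.2)
      NPC.Poly.id (NPC.Poly.snd (NPC.Poly.snd NPC.Poly.id))
  have e6 : Poly (fun l : List (List Bool × Bool) => ps l) :=
    NPC.Poly.map (F := fun (_ : List (List Bool × Bool)) (q : List Bool × Bool) => q.1) e7
      (NPC.Poly.fst (NPC.Poly.snd NPC.Poly.id))
  exact NPC.Poly.cons (e5.comp (NPC.Poly.pair (e6.comp (NPC.Poly.fst e0)) (NPC.Poly.snd e0)))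
    (NPC.Poly.const [])

theorem tb_spec {f : List Bool → List ℕ} {N : ℕ} {H : Subgroup (Equiv.Perm (Fin N))} :
    ∀ l : List (List Bool), (∀ a ∈ l, ∃ σ ∈ H, vals σ = f a) →
      Tab N (tb f l) ∧ (∀ v ∈ tb f l, InH H v)
  | [], _ => ⟨tab_nil N, fun v hv => by simp [tb, tbl] at hv⟩
  | a :: l, h => by
    obtain ⟨h1, h2⟩ := tb_spec l (fun b hb => h b (List.mem_cons_of_mem _ hb))
    obtain ⟨σ, hσ, hσf⟩ := h a List.mem_cons_self
    rw [tb_cons, ← hσf]
    obtain ⟨h4, h5, h6, _⟩ := ins_spec h1 σ
    exact ⟨h4, h6 H h2 hσ⟩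

/-- Accepted strings are in the group. -/
theorem cB_sound {f : List Bool → List ℕ} {N : ℕ} {H : Subgroup (Equiv.Perm (Fin N))}
    {l : List (List Bool)} (h : ∀ a ∈ l, ∃ σ ∈ H, vals σ = f a) {x : List Bool}
    (hx : cB f l x = true) : ∃ σ ∈ H, vals σ = f x := by
  unfold cB at hx
  simp only [Bool.and_eq_true, Bool.not_eq_true', decide_eq_false_iff_not,
    decide_eq_true_eq] at hx
  obtain ⟨h4, h5, h6, h7⟩ := hx
  obtain ⟨h1, h2⟩ := tb_spec l h
  obtain ⟨b, l', rfl⟩ := List.exists_cons_of_ne_nil h4
  obtain ⟨τ, _, hτf⟩ := h b List.mem_cons_self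
  rw [List.head?_cons, Option.getD_some, ← hτf, vals_length] at h5
  obtain ⟨σ, hσ⟩ := exists_of_isp h6
  subst h5
  rw [← hσ] at h7
  obtain ⟨σ', h8, h9, _⟩ := sft_spec h1 σ
  rw [h8, key_none] at h7
  refine ⟨σ, ?_, hσ⟩
  rw [h9 H h2, h7]
  exact H.one_mem

theorem ps_cons_true (x : List Bool) (l : List (List Bool × Bool)) :
    ps ((x, true) :: l) = x :: ps l := by
  unfold ps
  simp

theorem ps_all : ∀ l : List (List Bool × Bool), (∀ e ∈ l, e.2 = true) → ps l = l.map Prod.fst
  | [], _ => rfl
  | (x, b) :: l, h => by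
    have h1 : b = true := h (x, b) List.mem_cons_self
    subst h1
    rw [ps_cons_true, ps_all l fun e he => h e (List.mem_cons_of_mem _ he)]
    rfl

/-- All mistakes are positive examples, and their number is bounded. -/
theorem mist_spec {f : List Bool → List ℕ} {N n : ℕ} {H : Subgroup (Equiv.Perm (Fin N))}
    {A B : Set (List Bool)} (hA : ∀ x ∈ A, x.length = n → ∃ σ ∈ H, vals σ = f x)
    (hB : ∀ x ∈ B, x.length = n → ¬ ∃ σ ∈ H, vals σ = f x) :
    ∀ l : List (List Bool × Bool), (∀ e ∈ l, Ok A B e ∧ e.1.length = n) → Mist (cL f) l →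
      (∀ e ∈ l, e.2 = true) ∧ l.length ≤ (tb f (ps l)).length + 1
  | [], _, _ => ⟨fun e he => by simp at he, by simp⟩
  | (x, b) :: l, h, hm => by
    obtain ⟨h1, h2⟩ := mist_spec hA hB l (fun e he => h e (List.mem_cons_of_mem _ he)) hm.2
    have h3 : ∀ a ∈ ps l, ∃ σ ∈ H, vals σ = f a := by
      intro a ha
      rw [ps_all l h1] at ha
      obtain ⟨e, he, rfl⟩ := List.mem_map.1 ha
      exact hA _ ((h e (List.mem_cons_of_mem _ he)).1.1 (h1 e he))
        (h e (List.mem_cons_of_mem _ he)).2
    have h4 := hm.1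
    simp only at h4
    rw [cL_bits] at h4
    obtain ⟨h5, h6⟩ := h (x, b) List.mem_cons_self
    cases b with
    | false => exact absurd (cB_sound h3 (h4.2 rfl)) (hB x (h5.2 rfl) h6)
    | true =>
      refine ⟨fun e he => ?_, ?_⟩
      · rcases List.mem_cons.1 he with rfl | he
        · rfl
        · exact h1 e he
      obtain ⟨σ, hσ, hσf⟩ := hA x (h5.1 rfl) h6
      rw [ps_cons_true, tb_cons, ← hσf, List.length_cons]
      obtain ⟨h7, h8⟩ := tb_spec _ h3
      by_cases h9 : ps l = []
      · have h10 : l = [] := by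
          rw [ps_all l h1] at h9
          exact List.map_eq_nil_iff.1 h9
        subst h10
        simp
      · obtain ⟨a, l', hl'⟩ := List.exists_cons_of_ne_nil h9
        obtain ⟨τ, _, hτf⟩ := h3 a (by rw [hl']; exact List.mem_cons_self)
        have h11 : ¬ key (sft (tb f (ps l)) (vals σ)) = none := by
          intro h12
          have h13 : cB f (ps l) x = true := by
            unfold cB
            rw [hl'] at h12 ⊢
            simp only [List.head?_cons, Option.getD_some, ← hσf, ← hτf, vals_length, isp_vals, h12]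
            simp
          have := h4.1 h13
          simp at this
        have h12 : (Pool.Agent.TH682.GD.ins (tb f (ps l)) (vals σ)).length =
            (tb f (ps l)).length + 1 := by
          unfold Pool.Agent.TH682.GD.ins
          rw [if_neg h11, List.length_cons]
        rw [h12]
        omega

/-- **Pairs separated by permutation groups can be learned online.** -/
theorem learnable_of_group {A B : Set (List Bool)} (h : GroupSeparated A B) : Learnable A B := by
  obtain ⟨f, hf, hN⟩ := h
  have hfp : Poly f := poly_of_polyTime hf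
  obtain ⟨q, hq⟩ := hfp.sz_le
  refine ⟨cL f, (q.comp (Polynomial.C 4 * Polynomial.X + 1)) ^ 2 + 1,
    PIso.poly_iff.1 (cL_poly hfp), fun n l hl hm => ?_⟩
  obtain ⟨N, H, hA, hB⟩ := hN n
  obtain ⟨h1, h2⟩ := mist_spec hA hB l hl hm
  rcases l with _ | ⟨e, l⟩
  · simp
  · have h3 : ∀ a ∈ ps (e :: l), ∃ σ ∈ H, vals σ = f a := by
      intro a ha
      rw [ps_all _ h1] at ha
      obtain ⟨e, he, rfl⟩ := List.mem_map.1 ha
      exact hA _ ((hl e he).1.1 (h1 e he)) (hl e he).2
    obtain ⟨σ, _, hσ⟩ := hA e.1 ((hl e List.mem_cons_self).1.1 (h1 e List.mem_cons_self))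
      (hl e List.mem_cons_self).2
    have h4 : N ≤ q.eval (4 * n + 1) := by
      have h5 : N = (f e.1).length := by rw [← hσ, vals_length]
      have h6 := length_lt_sz (f e.1)
      have h7 := hq e.1
      have h8 := sz_listBool_le e.1
      rw [(hl e List.mem_cons_self).2] at h8
      have h9 := eval_mono q h8
      omega
    have h5 := tab_length_le (tb_spec _ h3).1
    have h7 := Nat.pow_le_pow_left h4 2
    simp only [Polynomial.eval_add, Polynomial.eval_pow, Polynomial.eval_comp,
      Polynomial.eval_mul, Polynomial.eval_C, Polynomial.eval_X, Polynomial.eval_one]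
    omega

end Pool.Agent.TH682.DP
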