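import Pool.Agent.TH682.DP.Sim

/-!
# Nondeterministic reductions to separators
-/

set_option autoImplicit false

namespace Pool.Agent.TH682.DP

open Pool.Agent.NPC Pool.Agent.H660R2.NX Pool.Agent.H579R2.Spt
open Pool.Agent.TH682.KD (alg_poly head?_eq)
open Pool.Agent.W903.GP (SigmaP InPH)
open Pool.Agent.TH682.KD (InPT InNPT)

theorem isOpen_decides (act : List Bool → List Bool) (R : ℕ) (P : Prop) :
    IsOpen {s : List Bool → Bool | Decides act (orc s) R P} := by
  rw [isOpen_iff_forall_mem_open]
  intro s hs
  set Q : Finset (List Bool) := (List.finite_length_lt Bool R).toFinset.image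
    (fun g => (act g).tail) with hQ
  refine ⟨⋂ q ∈ Q, {s' : List Bool → Bool | s' q = s q}, fun s' hs' => ?_, ?_, ?_⟩
  · refine decides_congr (fun g q hg hq => ?_) hs
    have h1 : q ∈ Q := by
      rw [hQ, Finset.mem_image]
      exact ⟨g, by rw [Set.Finite.mem_toFinset]; exact hg, by rw [hq]; rfl⟩
    have h2 : s' q = s q := by
      simp only [Set.mem_iInter] at hs'
      exact hs' q h1
    show s q = true ↔ s' q = true
    rw [h2]
  · exact isOpen_biInter_finset fun q _ =>
      show IsOpen ((fun s' : List Bool → Bool => s' q) ⁻¹' {s q}) from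
        (isOpen_discrete _).preimage (continuous_apply q)
  · simp only [Set.mem_iInter]
    exact fun q _ => rfl

theorem countable_polynomial : Countable (Polynomial ℕ) := by
  refine Function.Injective.countable
    (f := fun p : Polynomial ℕ => (List.range (p.natDegree + 1)).map p.coeff) fun p q h => ?_
  simp only at h
  have h1 : p.natDegree = q.natDegree := by
    have := congrArg List.length h
    simpa using this
  ext i
  rcases Nat.lt_or_ge p.natDegree i with h2 | h2
  · rw [Polynomial.coeff_eq_zero_of_natDegree_lt h2,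
      Polynomial.coeff_eq_zero_of_natDegree_lt (h1 ▸ h2)]
  · rw [h1] at h
    exact List.map_inj_left.1 h i (List.mem_range.2 (by omega))

/-- The algorithm `f` with the time bound `r` and certificates of length `s` reduces `L` to `S`. -/
def RedN (f : List Bool → List Bool) (r s : Polynomial ℕ) (L S : Set (List Bool)) : Prop :=
  (∀ z : List Bool, Decides (alg f z []) S (r.eval z.length) True ∨
    Decides (alg f z []) S (r.eval z.length) False) ∧
  ∀ x : List Bool, x ∈ L ↔ ∃ w : List Bool, w.length ≤ s.eval x.length ∧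
    Decides (alg f (pairBits x w) []) S (r.eval (pairBits x w).length) True

theorem isClosed_redN (f : List Bool → List Bool) (r s : Polynomial ℕ) (L : Set (List Bool)) :
    IsClosed {t : List Bool → Bool | RedN f r s L (orc t)} := by
  have h1 : {t : List Bool → Bool | RedN f r s L (orc t)} =
      (⋂ z : List Bool, ({t : List Bool → Bool |
        Decides (alg f z []) (orc t) (r.eval z.length) True} ∪ {t : List Bool → Bool |
        Decides (alg f z []) (orc t) (r.eval z.length) False})) ∩
      ⋂ x : List Bool, {t : List Bool → Bool | x ∈ L ↔ t ∈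
        ⋃ w ∈ {w : List Bool | w.length < s.eval x.length + 1}, {t : List Bool → Bool |
          Decides (alg f (pairBits x w) []) (orc t) (r.eval (pairBits x w).length) True}} := by
    ext t
    simp only [RedN, Set.mem_inter_iff, Set.mem_iInter, Set.mem_ofPred_eq, Set.mem_union,
      Set.mem_iUnion, Nat.lt_succ_iff, exists_prop]
  rw [h1]
  refine IsClosed.inter (isClosed_iInter fun z => (isClosed_decides _ _ _).union
    (isClosed_decides _ _ _)) (isClosed_iInter fun x => ?_)
  have h2 : IsClosed (⋃ w ∈ {w : List Bool | w.length < s.eval x.length + 1},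
      {t : List Bool → Bool |
        Decides (alg f (pairBits x w) []) (orc t) (r.eval (pairBits x w).length) True}) :=
    (List.finite_length_lt Bool _).isClosed_biUnion fun w _ => isClosed_decides _ _ _
  have h3 : IsOpen (⋃ w ∈ {w : List Bool | w.length < s.eval x.length + 1},
      {t : List Bool → Bool |
        Decides (alg f (pairBits x w) []) (orc t) (r.eval (pairBits x w).length) True}) :=
    isOpen_biUnion fun w _ => isOpen_decides _ _ _
  by_cases hx : x ∈ L
  · have h5 : {t : List Bool → Bool | x ∈ L ↔ t ∈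
        ⋃ w ∈ {w : List Bool | w.length < s.eval x.length + 1}, {t : List Bool → Bool |
          Decides (alg f (pairBits x w) []) (orc t) (r.eval (pairBits x w).length) True}} =
        (⋃ w ∈ {w : List Bool | w.length < s.eval x.length + 1}, {t : List Bool → Bool |
          Decides (alg f (pairBits x w) []) (orc t) (r.eval (pairBits x w).length) True}) := by
      ext t
      constructor
      · intro h
        exact h.1 hx
      · intro h
        exact ⟨fun _ => h, fun _ => hx⟩
    rw [h5]
    exact h2
  · have h4 := h3.isClosed_compl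
    have h5 : {t : List Bool → Bool | x ∈ L ↔ t ∈
        ⋃ w ∈ {w : List Bool | w.length < s.eval x.length + 1}, {t : List Bool → Bool |
          Decides (alg f (pairBits x w) []) (orc t) (r.eval (pairBits x w).length) True}} =
        (⋃ w ∈ {w : List Bool | w.length < s.eval x.length + 1}, {t : List Bool → Bool |
          Decides (alg f (pairBits x w) []) (orc t) (r.eval (pairBits x w).length) True})ᶜ := by
      ext t
      rw [Set.mem_compl_iff]
      constructor
      · intro h h'
        exact hx (h.2 h')
      · intro h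
        exact ⟨fun h' => absurd h' hx, fun h' => absurd h' h⟩
    rw [h5]
    exact h4

/-- The history is unique. -/
theorem correct_unique {act : List Bool → List Bool} {S : Set (List Bool)} {g g' : List Bool}
    (h1 : Correct act S g) (h2 : ∀ q, act g ≠ false :: q) (h3 : Correct act S g')
    (h4 : ∀ q, act g' ≠ false :: q) : g = g' := by
  have key : ∀ i, i ≤ g.length → i ≤ g'.length → g.take i = g'.take i := by
    intro i
    induction i with
    | zero => intro _ _; simp
    | succ i ih =>
      intro hi hi'
      have h5 := ih (by omega) (by omega)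
      rw [List.take_succ_eq_append_getElem (by omega), List.take_succ_eq_append_getElem (by omega),
        h5]
      obtain ⟨q, h6, h7⟩ := h1 i (by omega)
      obtain ⟨q', h8, h9⟩ := h3 i (by omega)
      rw [h5, h8] at h6
      have h10 : q' = q := (List.cons.inj h6).2
      subst h10
      have h11 : g[i] = g'[i] := by
        rw [Bool.eq_iff_iff, h7, h9]
      rw [h11]
  rcases Nat.lt_trichotomy g.length g'.length with h5 | h5 | h5
  · obtain ⟨q, h6, _⟩ := h3 g.length h5
    have h7 := key g.length le_rfl h5.le
    rw [List.take_length] at h7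
    rw [← h7] at h6
    exact absurd h6 (h2 q)
  · have h7 := key g.length le_rfl h5.le
    rw [List.take_length, h5, List.take_length] at h7
    exact h7
  · obtain ⟨q, h6, _⟩ := h1 g'.length h5
    have h7 := key g'.length h5.le le_rfl
    rw [List.take_length] at h7
    rw [h7] at h6
    exact absurd h6 (h4 q)

/-- **One algorithm for all separators with given values at finitely many strings.** -/
theorem unifN {A B L : Set (List Bool)} (hAB : Disjoint A B)
    (h : ∀ S, IsSep A B S → InNPT S L) :
    ∃ (f : List Bool → List Bool) (r s : Polynomial ℕ) (F Y : List (List Bool)), PolyTime f ∧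
      (∀ q ∈ F, (q ∈ A → q ∈ Y) ∧ (q ∈ B → q ∉ Y)) ∧
      ∀ S, IsSep A B S → (∀ q ∈ F, (q ∈ S ↔ q ∈ Y)) → RedN f r s L S := by
  classical
  set X : Set (List Bool → Bool) := {s | (∀ q ∈ A, s q = true) ∧ ∀ q ∈ B, s q = false} with hX
  have hXc : IsClosed X := by
    have h1 : X = (⋂ q ∈ A, {s : List Bool → Bool | s q = true}) ∩
        (⋂ q ∈ B, {s : List Bool → Bool | s q = false}) := by
      ext s
      simp [hX]
    rw [h1]
    exact (isClosed_biInter fun q _ => isClosed_eq (continuous_apply q) continuous_const).inter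
      (isClosed_biInter fun q _ => isClosed_eq (continuous_apply q) continuous_const)
  have : CompactSpace X := isCompact_iff_compactSpace.1 hXc.isCompact
  have hsep : ∀ s ∈ X, IsSep A B (orc s) := fun s hs => ⟨fun q hq => hs.1 q hq, fun q hq hq' => by
    have h1 : s q = true := hq'
    rw [hs.2 q hq] at h1
    exact Bool.false_ne_true h1⟩
  have : Nonempty X := ⟨⟨fun q => decide (q ∈ A), fun q hq => by simpa using hq, fun q hq => by
    simpa using Set.disjoint_right.1 hAB hq⟩⟩
  have : Countable {D : List Bool → List Bool | PolyTime D} :=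
    Pool.Agent.NPC.PIso.countable_polyTime.to_subtype
  have : Countable (Polynomial ℕ) := countable_polynomial
  obtain ⟨⟨⟨f, hf⟩, r, s⟩, s0, hs0⟩ := nonempty_interior_of_iUnion_of_closed
    (X := X) (ι := {D : List Bool → List Bool | PolyTime D} × (Polynomial ℕ × Polynomial ℕ))
    (f := fun i => {t : X | RedN i.1.1 i.2.1 i.2.2 L (orc t.1)})
    (fun i => (isClosed_redN _ _ _ _).preimage continuous_subtype_val)
    (by
      rw [Set.eq_univ_iff_forall]
      rintro ⟨t, ht⟩
      obtain ⟨M, s, ⟨f, r, hf, hd⟩, hL⟩ := h (orc t) (hsep t ht)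
      refine Set.mem_iUnion.2 ⟨(⟨f, hf⟩, r, s), fun z => ?_, fun x => ?_⟩
      · by_cases hz : z ∈ M
        · have := hd z
          simp only [hz] at this
          exact Or.inl this
        · have := hd z
          simp only [hz] at this
          exact Or.inr this
      · rw [hL]
        refine exists_congr fun w => and_congr_right fun _ => ?_
        have h1 := hd (pairBits x w)
        constructor
        · intro h2
          simp only [h2] at h1
          exact h1
        · intro h2
          obtain ⟨g, g1, g2, g3, g4⟩ := h1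
          obtain ⟨g', g1', g2', g3', g4'⟩ := h2
          rw [← g4, correct_unique g2 g3 g2' g3']
          exact g4'.2 trivial)
  obtain ⟨t, ht, hto, hst⟩ := mem_interior.1 hs0
  obtain ⟨V, hV, rfl⟩ := isOpen_induced_iff.1 hto
  obtain ⟨I, u, h1, h2⟩ := isOpen_pi_iff.1 hV s0.1 hst
  refine ⟨f, r, s, I.toList, (I.filter (fun q => s0.1 q = true)).toList, hf,
    fun q hq => ⟨fun hA => ?_, fun hB hY => ?_⟩, fun S hS hF => ?_⟩
  · rw [Finset.mem_toList, Finset.mem_filter]
    exact ⟨Finset.mem_toList.1 hq, s0.2.1 q hA⟩
  · rw [Finset.mem_toList, Finset.mem_filter, s0.2.2 q hB] at hY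
    exact Bool.false_ne_true hY.2
  · have h3 : orc (fun q => decide (q ∈ S)) = S := by
      ext q
      simp [orc]
    have h4 : (fun q => decide (q ∈ S)) ∈ X := ⟨fun q hq => by simpa using hS.1 hq, fun q hq => by
      simpa using hS.2 hq⟩
    have h5 : (fun q => decide (q ∈ S)) ∈ V := by
      refine h2 fun q hq => ?_
      have h6 : decide (q ∈ S) = s0.1 q := by
        have h7 := hF q (Finset.mem_toList.2 hq)
        rw [Finset.mem_toList, Finset.mem_filter] at h7
        rw [Bool.eq_iff_iff, decide_eq_true_eq, h7]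
        exact ⟨fun h => h.2, fun h => ⟨hq, h⟩⟩
      show decide (q ∈ S) ∈ u q
      rw [h6]
      exact (h1 q hq).2
    have h6 := ht (show (⟨_, h4⟩ : X) ∈ Subtype.val ⁻¹' V from h5)
    have h7 : RedN f r s L (orc (fun q => decide (q ∈ S))) := h6
    rw [h3] at h7
    exact h7

/-! ### Languages decided in nondeterministic polynomial time with complete lists -/

/-- The languages which are decided in nondeterministic polynomial time with a complete list. -/
def InNY (c : List Bool → List Bool) (A B L : Set (List Bool)) : Prop :=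
  ∃ (D : List Bool × (List (List Bool × Bool) × List Bool) → Bool) (p s : Polynomial ℕ), Poly D ∧
    ∀ (x : List Bool) (T : List (List Bool × Bool)), Comp c A B (p.eval x.length) T →
      (x ∈ L ↔ ∃ w : List Bool, w.length ≤ s.eval x.length ∧ D (x, (T, w)) = true)

variable {c : List Bool → List Bool} {p0 : Polynomial ℕ} {A B : Set (List Bool)}

theorem inNY_of_inP {L : Set (List Bool)} (h : InP L) : InNY c A B L := by
  obtain ⟨V, hV, hVL⟩ := h
  refine ⟨fun c => decide (V c.1 = [true]), 0, 0, NPC.Poly.decide_eq
    ((PIso.poly_iff.2 hV : Poly V).comp (NPC.Poly.fst NPC.Poly.id)) (NPC.Poly.const _),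
    fun x T _ => ?_⟩
  rw [hVL]
  constructor
  · intro h
    exact ⟨[], by simp, by simpa using h⟩
  · rintro ⟨w, _, h⟩
    simpa using h

/-- Languages that are nondeterministically reducible to all separators. -/
theorem inNY_of_hard (hc : Poly c) (hAB : Disjoint A B) {L : Set (List Bool)}
    (h : ∀ S, IsSep A B S → InNPT S L) : InNY c A B L := by
  obtain ⟨f, r, s, F, Y, hf, hFY, hred⟩ := unifN hAB h
  have hfp : Poly f := PIso.poly_iff.2 hf
  obtain ⟨q, hq⟩ := PIso.length_bound hfp
  obtain ⟨p, hp⟩ : ∃ p : Polynomial ℕ, ∀ n, p.eval n = q.eval (4 * n + 3 + r.eval n) :=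
    ⟨q.comp (Polynomial.C 4 * Polynomial.X + 3 + r), fun n => by
      rw [Polynomial.eval_comp]
      simp only [Polynomial.eval_add, Polynomial.eval_mul, Polynomial.eval_C, Polynomial.eval_X,
        Polynomial.eval_ofNat]⟩
  obtain ⟨m1, hm1⟩ : ∃ m1 : Polynomial ℕ, ∀ n, m1.eval n = p.eval (2 * n + 1 + s.eval n) :=
    ⟨p.comp (Polynomial.C 2 * Polynomial.X + 1 + s), fun n => by
      rw [Polynomial.eval_comp]
      simp only [Polynomial.eval_add, Polynomial.eval_mul, Polynomial.eval_C, Polynomial.eval_X,
        Polynomial.eval_one]⟩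
  have e1 : Poly (fun d : List Bool × (List (List Bool × Bool) × List Bool) => d.1) :=
    NPC.Poly.fst NPC.Poly.id
  have e2 : Poly (fun d : List Bool × (List (List Bool × Bool) × List Bool) => d.2.1) :=
    NPC.Poly.fst (NPC.Poly.snd NPC.Poly.id)
  have e3 : Poly (fun d : List Bool × (List (List Bool × Bool) × List Bool) => d.2.2) :=
    NPC.Poly.snd (NPC.Poly.snd NPC.Poly.id)
  have e4 := Pool.Agent.H622R2.poly_pairBits e1 e3
  refine ⟨fun d => simD c F Y f r (pairBits d.1 d.2.2,
      cut (p.eval (pairBits d.1 d.2.2).length) d.2.1), m1, s,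
    (simD_poly hc hfp r).comp (NPC.Poly.pair e4 (cut_poly ((UPoly.length e4).eval p).toPoly e2)),
    fun x T hT => ?_⟩
  -- the simulation
  have hsim : ∀ w : List Bool, w.length ≤ s.eval x.length →
      ∀ S, IsSep A B S → (∀ q ∈ F, (q ∈ S ↔ q ∈ Y)) →
      (∀ q : List Bool, q.length < p.eval (pairBits x w).length →
        (ans c F Y (cut (p.eval (pairBits x w).length) T) q = true ↔ q ∈ S)) →
      (simD c F Y f r (pairBits x w, cut (p.eval (pairBits x w).length) T) = true ↔
        Decides (alg f (pairBits x w) []) S (r.eval (pairBits x w).length) True) := by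
    intro w hw S hS hSF hSans
    set z := pairBits x w with hz
    have hans : ∀ h v : List Bool, h.length < r.eval z.length → alg f z [] h = false :: v →
        (ans c F Y (cut (p.eval z.length) T) v = true ↔ v ∈ S) := by
      intro h v hh hv
      refine hSans v ?_
      have h1 := hq (pairBits (pairBits z []) h)
      have h2 : f (pairBits (pairBits z []) h) = false :: v := hv
      rw [h2, List.length_cons, PIso.pairBits_length, PIso.pairBits_length] at h1
      rw [hp]
      have h3 : q.eval (2 * (2 * z.length + 1 + ([] : List Bool).length) + 1 + h.length) ≤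
          q.eval (4 * z.length + 3 + r.eval z.length) := eval_mono q (by
        rw [List.length_nil]
        omega)
      omega
    unfold simD
    rw [decide_eq_true_eq, List.length_range]
    change alg f z [] ((stepS c F Y f z (cut (p.eval z.length) T))^[r.eval z.length] []) =
      [true] ↔ _
    rcases (hred S hS hSF).1 z with h1 | h1
    · rw [sim_correct h1 hans]
      exact ⟨fun _ => h1, fun _ => trivial⟩
    · rw [sim_correct h1 hans]
      exact ⟨fun h => h.elim, fun h => (sim_correct h1 hans).1 ((sim_correct h hans).2 trivial)⟩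
  -- the separator for the long strings
  obtain ⟨S, hS, hSF, hSans⟩ := sep_of_comp hAB hFY hT
  rw [(hred S hS hSF).2 x]
  refine exists_congr fun w => and_congr_right fun hw => ?_
  have hle : p.eval (pairBits x w).length ≤ m1.eval x.length := by
    rw [hm1]
    refine eval_mono p ?_
    rw [PIso.pairBits_length]
    omega
  refine (hsim w hw S hS hSF fun v hv => ?_).symm
  rw [← hSans v (by omega)]
  unfold ans
  rw [rw'_cut hv]

/-- **Existential quantifiers.** -/
theorem inNY_ex {L M : Set (List Bool)} (hM : InNY c A B M) {s : Polynomial ℕ}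
    (hL : ∀ x : List Bool, x ∈ L ↔
      ∃ w : List Bool, w.length ≤ s.eval x.length ∧ pairBits x w ∈ M) : InNY c A B L := by
  obtain ⟨D, p, r, hD, hDM⟩ := hM
  obtain ⟨m1, hm1⟩ : ∃ m1 : Polynomial ℕ, ∀ n, m1.eval n = p.eval (2 * n + 1 + s.eval n) :=
    ⟨p.comp (Polynomial.C 2 * Polynomial.X + 1 + s), fun n => by
      rw [Polynomial.eval_comp]
      simp only [Polynomial.eval_add, Polynomial.eval_mul, Polynomial.eval_C, Polynomial.eval_X,
        Polynomial.eval_one]⟩
  obtain ⟨r1, hr1⟩ : ∃ r1 : Polynomial ℕ, ∀ n, r1.eval n = 2 * s.eval n + 1 +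
      r.eval (2 * n + 1 + s.eval n) :=
    ⟨Polynomial.C 2 * s + 1 + r.comp (Polynomial.C 2 * Polynomial.X + 1 + s), fun n => by
      simp only [Polynomial.eval_add, Polynomial.eval_mul, Polynomial.eval_C, Polynomial.eval_X,
        Polynomial.eval_one, Polynomial.eval_comp]⟩
  have e1 : Poly (fun c : List Bool × (List (List Bool × Bool) × List Bool) => c.1) :=
    NPC.Poly.fst NPC.Poly.id
  have e2 : Poly (fun c : List Bool × (List (List Bool × Bool) × List Bool) => c.2.1) :=
    NPC.Poly.fst (NPC.Poly.snd NPC.Poly.id)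
  have e3 : Poly (fun c : List Bool × (List (List Bool × Bool) × List Bool) => (unpair c.2.2).1) :=
    NPC.Poly.fst (poly_unpair.comp (NPC.Poly.snd (NPC.Poly.snd NPC.Poly.id)))
  have e3' : Poly (fun c : List Bool × (List (List Bool × Bool) × List Bool) => (unpair c.2.2).2) :=
    NPC.Poly.snd (poly_unpair.comp (NPC.Poly.snd (NPC.Poly.snd NPC.Poly.id)))
  have e4 := Pool.Agent.H622R2.poly_pairBits e1 e3
  refine ⟨fun c => decide ((unpair c.2.2).1.length ≤ s.eval c.1.length) &&
    (decide ((unpair c.2.2).2.length ≤ r.eval (pairBits c.1 (unpair c.2.2).1).length) &&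
      D (pairBits c.1 (unpair c.2.2).1, (cut (p.eval (pairBits c.1 (unpair c.2.2).1).length) c.2.1,
        (unpair c.2.2).2))), m1, r1, NPC.Poly.and (NPC.Poly.decide_le (NPC.Poly.length e3)
          ((UPoly.length e1).eval s).toPoly) (NPC.Poly.and (NPC.Poly.decide_le
            (NPC.Poly.length e3') ((UPoly.length e4).eval r).toPoly) (hD.comp (NPC.Poly.pair e4
              (NPC.Poly.pair (cut_poly ((UPoly.length e4).eval p).toPoly e2) e3')))),
    fun x T hT => ?_⟩
  have hc : ∀ w : List Bool, w.length ≤ s.eval x.length →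
      Comp c A B (p.eval (pairBits x w).length) (cut (p.eval (pairBits x w).length) T) := by
    intro w hw
    refine comp_cut hT ?_
    rw [hm1]
    refine eval_mono p ?_
    rw [PIso.pairBits_length]
    omega
  simp only [Bool.and_eq_true, decide_eq_true_eq]
  rw [hL]
  constructor
  · rintro ⟨w, hw, hwM⟩
    obtain ⟨u, hu, huD⟩ := (hDM _ _ (hc w hw)).1 hwM
    refine ⟨pairBits w u, ?_, ?_⟩
    · rw [PIso.pairBits_length, hr1]
      rw [PIso.pairBits_length] at hu
      have h1 : r.eval (2 * x.length + 1 + w.length) ≤ r.eval (2 * x.length + 1 +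
        s.eval x.length) := eval_mono r (by omega)
      omega
    · rw [unpair_pairBits]
      exact ⟨hw, hu, huD⟩
  · rintro ⟨u, _, h1, h2, h3⟩
    exact ⟨_, h1, (hDM _ _ (hc _ h1)).2 ⟨_, h2, h3⟩⟩

/-- **Complements.** -/
theorem inNY_compl (hcG : Good c p0 A B) (hco : ∀ L, InNP L → InNY c A B Lᶜ)
    {L : Set (List Bool)}
    (hL : InNY c A B L) : InNY c A B Lᶜ := by
  obtain ⟨D, p, s, hD, hDL⟩ := hL
  -- the language in `NP`
  obtain ⟨q, hq⟩ := (dt_poly).sz_le
  have h1 : InNP {y | ∃ w : List Bool, w.length ≤ s.eval (dt y).1.length ∧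
      D ((dt y).1, ((dt y).2, w)) = true} := by
    have e1 : Poly (fun z : List Bool => dt (unpair z).1) :=
      dt_poly.comp (NPC.Poly.fst poly_unpair)
    have e2 : Poly (fun z : List Bool => (unpair z).2) := NPC.Poly.snd poly_unpair
    refine ⟨fun z => [decide ((unpair z).2.length ≤ s.eval (dt (unpair z).1).1.length) &&
      D ((dt (unpair z).1).1, ((dt (unpair z).1).2, (unpair z).2))],
      s.comp (q.comp (Polynomial.C 4 * Polynomial.X + 1)), polyTime_of_poly (NPC.Poly.and
        (NPC.Poly.decide_le (NPC.Poly.length e2) ((UPoly.length (NPC.Poly.fst e1)).eval s).toPoly)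
        (hD.comp (NPC.Poly.pair (NPC.Poly.fst e1) (NPC.Poly.pair (NPC.Poly.snd e1) e2)))),
      fun y => ?_⟩
    simp only [Set.mem_ofPred_eq, unpair_pairBits, List.cons.injEq, and_true, Bool.and_eq_true,
      decide_eq_true_eq]
    constructor
    · rintro ⟨w, hw, hwD⟩
      refine ⟨w, hw.trans ?_, hw, hwD⟩
      rw [Polynomial.eval_comp, Polynomial.eval_comp]
      refine eval_mono s ?_
      have h2 := hq y
      have h3 := sz_listBool_le y
      have h4 : (dt y).1.length ≤ sz (dt y) := by
        have h5 := length_lt_sz (dt y).1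
        have h6 : sz (dt y) = sz (dt y).1 + sz (dt y).2 + 1 := by rw [← sz_pair]
        omega
      have h5 : q.eval (sz y) ≤ q.eval (4 * y.length + 1) := eval_mono q h3
      simp only [Polynomial.eval_add, Polynomial.eval_mul, Polynomial.eval_C, Polynomial.eval_X,
        Polynomial.eval_one]
      omega
    · rintro ⟨w, _, hw, hwD⟩
      exact ⟨w, hw, hwD⟩
  obtain ⟨D', p', s', hD', hDL'⟩ := hco _ h1
  -- the bounds
  obtain ⟨KB, hBe⟩ : ∃ KB : Polynomial ℕ, ∀ n, KB.eval n = 4 * n + 1 + szB p0 (p.eval n) + 1 :=
    ⟨Polynomial.C 4 * Polynomial.X + 1 +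
      (p * p0.comp p * (Polynomial.C 4 * p + 5 + 1) + 1) + 1, fun n => by
      unfold szB
      simp only [Polynomial.eval_add, Polynomial.eval_mul, Polynomial.eval_C, Polynomial.eval_X,
        Polynomial.eval_one, Polynomial.eval_comp, Polynomial.eval_ofNat]⟩
  have e1 : Poly (fun c : List Bool × (List (List Bool × Bool) × List Bool) => c.1) :=
    NPC.Poly.fst NPC.Poly.id
  have e2 : Poly (fun c : List Bool × (List (List Bool × Bool) × List Bool) => c.2.1) :=
    NPC.Poly.fst (NPC.Poly.snd NPC.Poly.id)
  have e2' : Poly (fun c : List Bool × (List (List Bool × Bool) × List Bool) => c.2.2) :=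
    NPC.Poly.snd (NPC.Poly.snd NPC.Poly.id)
  have e3 : Poly (fun c : List Bool × (List (List Bool × Bool) × List Bool) =>
      bits (c.1, cut (p.eval c.1.length) c.2.1)) :=
    bits_poly.comp (NPC.Poly.pair e1 (cut_poly ((UPoly.length e1).eval p).toPoly e2))
  refine ⟨fun c => decide (c.2.2.length ≤ s'.eval (bits (c.1, cut (p.eval c.1.length) c.2.1)).length)
      && D' (bits (c.1, cut (p.eval c.1.length) c.2.1),
        (cut (p'.eval (bits (c.1, cut (p.eval c.1.length) c.2.1)).length) c.2.1, c.2.2)),
    p + p'.comp KB, s'.comp KB, NPC.Poly.and (NPC.Poly.decide_le (NPC.Poly.length e2')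
      ((UPoly.length e3).eval s').toPoly) (hD'.comp (NPC.Poly.pair e3 (NPC.Poly.pair
        (cut_poly ((UPoly.length e3).eval p').toPoly e2) e2'))), fun x T hT => ?_⟩
  rw [Polynomial.eval_add, Polynomial.eval_comp, hBe] at hT
  have hT1 : Comp c A B (p.eval x.length) (cut (p.eval x.length) T) := comp_cut hT (by omega)
  have hlen : (bits (x, cut (p.eval x.length) T)).length ≤
      4 * x.length + 1 + szB p0 (p.eval x.length) + 1 := by
    rw [bits_length, sz_pair]
    have h2 := sz_listBool_le x
    have h3 := valid_sz_le hcG hT1.1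
    omega
  have hT2 : Comp c A B (p'.eval (bits (x, cut (p.eval x.length) T)).length)
      (cut (p'.eval (bits (x, cut (p.eval x.length) T)).length) T) := by
    refine comp_cut hT ?_
    have := eval_mono p' hlen
    omega
  have h2 := hDL' _ _ hT2
  have h3 : bits (x, cut (p.eval x.length) T) ∈ {y | ∃ w : List Bool,
      w.length ≤ s.eval (dt y).1.length ∧ D ((dt y).1, ((dt y).2, w)) = true}ᶜ ↔ x ∈ Lᶜ := by
    rw [Set.mem_compl_iff, Set.mem_compl_iff, hDL _ _ hT1, Set.mem_ofPred_eq, dt_bits]
  rw [← h3, h2]
  simp only [Bool.and_eq_true, decide_eq_true_eq]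
  constructor
  · rintro ⟨w, hw, hwD⟩
    refine ⟨w, hw.trans ?_, hw, hwD⟩
    rw [Polynomial.eval_comp, hBe]
    exact eval_mono s' hlen
  · rintro ⟨w, _, hw, hwD⟩
    exact ⟨w, hw, hwD⟩

/-- **The polynomial hierarchy.** -/
theorem ph_inNY (hc : Poly c) (hcG : Good c p0 A B) (hAB : Disjoint A B)
    (hH : ∀ L, InNP L → ∀ S, IsSep A B S → InNPT S Lᶜ) :
    ∀ (k : ℕ) (L : Set (List Bool)), SigmaP k L → InNY c A B L := by
  intro k
  induction k with
  | zero => exact fun L hL => inNY_of_inP hL
  | succ k ih =>
    rintro L ⟨M, s, hM, hL⟩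
    exact inNY_ex (inNY_compl hcG (fun L hL => inNY_of_hard hc hAB (hH L hL)) (ih M hM)) hL

end Pool.Agent.TH682.DP
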