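import Pool.Agent.TH682.DP.Defs

/-!
# Complete lists of mistakes
-/

set_option autoImplicit false

namespace Pool.Agent.TH682.DP

open Pool.Agent.NPC Pool.Agent.TH682.GD Pool.Agent.TH682.KD

/-- The entries of length `n`. -/
def rw' (n : ℕ) (T : List (List Bool × Bool)) : List (List Bool × Bool) :=
  T.filter (fun e => decide (e.1.length = n))

theorem mem_rw' {n : ℕ} {T : List (List Bool × Bool)} {e : List Bool × Bool} :
    e ∈ rw' n T ↔ e ∈ T ∧ e.1.length = n := by
  unfold rw'
  rw [List.mem_filter, decide_eq_true_eq]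

theorem rw'_cons (n : ℕ) (e : List Bool × Bool) (T : List (List Bool × Bool)) :
    rw' n (e :: T) = if e.1.length = n then e :: rw' n T else rw' n T := by
  unfold rw'
  rw [List.filter_cons]
  simp only [decide_eq_true_eq]

/-- Mistakes, for strings of different lengths. -/
def MistAll (c : List Bool → List Bool) : List (List Bool × Bool) → Prop
  | [] => True
  | e :: T => (c (bits (rw' e.1.length T, e.1)) = [true] ↔ e.2 = false) ∧ MistAll c T

theorem mist_rw' {c : List Bool → List Bool} (n : ℕ) : ∀ {T : List (List Bool × Bool)},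
    MistAll c T → Mist c (rw' n T)
  | [], _ => trivial
  | e :: T, h => by
    rw [rw'_cons]
    split_ifs with h1
    · subst h1
      exact ⟨h.1, mist_rw' _ h.2⟩
    · exact mist_rw' n h.2

/-- Valid lists. -/
def Valid (c : List Bool → List Bool) (A B : Set (List Bool)) (m : ℕ)
    (T : List (List Bool × Bool)) : Prop :=
  (∀ e ∈ T, Ok A B e ∧ e.1.length < m) ∧ MistAll c T

/-- Complete lists. -/
def Comp (c : List Bool → List Bool) (A B : Set (List Bool)) (m : ℕ)
    (T : List (List Bool × Bool)) : Prop :=
  Valid c A B m T ∧ ∀ x : List Bool, x.length < m →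
    (x ∈ A → c (bits (rw' x.length T, x)) = [true]) ∧
      (x ∈ B → c (bits (rw' x.length T, x)) ≠ [true])

/-- The learner is good. -/
def Good (c : List Bool → List Bool) (p : Polynomial ℕ) (A B : Set (List Bool)) : Prop :=
  ∀ (n : ℕ) (l : List (List Bool × Bool)), (∀ e ∈ l, Ok A B e ∧ e.1.length = n) → Mist c l →
    l.length ≤ p.eval n

variable {c : List Bool → List Bool} {p : Polynomial ℕ} {A B : Set (List Bool)}

theorem comp_of_max {m : ℕ} {T : List (List Bool × Bool)} (hT : Valid c A B m T)
    (hmax : ∀ T', Valid c A B m T' → T'.length ≤ T.length) : Comp c A B m T := by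
  refine ⟨hT, fun x hm => ⟨fun hx => ?_, fun hx hcon => ?_⟩⟩
  · by_contra hcon
    have h1 : Valid c A B m ((x, true) :: T) := by
      refine ⟨fun e he => ?_, ⟨fun h => absurd h hcon, fun h => by simp at h⟩, hT.2⟩
      rcases List.mem_cons.1 he with rfl | he
      · exact ⟨⟨fun _ => hx, fun h => by simp at h⟩, hm⟩
      · exact hT.1 e he
    have := hmax _ h1
    simp at this
  · have h1 : Valid c A B m ((x, false) :: T) := by
      refine ⟨fun e he => ?_, ⟨fun _ => rfl, fun _ => hcon⟩, hT.2⟩
      rcases List.mem_cons.1 he with rfl | he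
      · exact ⟨⟨fun h => by simp at h, fun _ => hx⟩, hm⟩
      · exact hT.1 e he
    have := hmax _ h1
    simp at this

theorem length_eq_sum (m : ℕ) : ∀ T : List (List Bool × Bool), (∀ e ∈ T, e.1.length < m) →
    T.length ≤ ∑ n ∈ Finset.range m, (rw' n T).length
  | [], _ => by simp
  | e :: T, h => by
    have h1 := length_eq_sum m T (fun b hb => h b (List.mem_cons_of_mem _ hb))
    have h2 : ∀ n, (rw' n (e :: T)).length =
        (rw' n T).length + if n = e.1.length then 1 else 0 := by
      intro n
      rw [rw'_cons]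
      by_cases h3 : e.1.length = n
      · simp [h3]
      · simp [h3, Ne.symm h3]
    simp only [h2]
    rw [Finset.sum_add_distrib, Finset.sum_ite_eq', if_pos (Finset.mem_range.2
      (h e List.mem_cons_self)), List.length_cons]
    omega

theorem valid_length_le (hc : Good c p A B) {m : ℕ} {T : List (List Bool × Bool)}
    (hT : Valid c A B m T) : T.length ≤ m * p.eval m := by
  refine (length_eq_sum m T fun a ha => (hT.1 a ha).2).trans ?_
  have h1 : ∀ n ∈ Finset.range m, (rw' n T).length ≤ p.eval m := by
    intro n hn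
    rw [Finset.mem_range] at hn
    have h2 := hc n (rw' n T) (fun e he => ⟨(hT.1 e (mem_rw'.1 he).1).1, (mem_rw'.1 he).2⟩)
      (mist_rw' n hT.2)
    exact h2.trans (eval_mono p hn.le)
  refine (Finset.sum_le_sum h1).trans ?_
  rw [Finset.sum_const, Finset.card_range, smul_eq_mul]

/-- The part of a list of strings shorter than `m`. -/
def cut (m : ℕ) (T : List (List Bool × Bool)) : List (List Bool × Bool) :=
  T.filter (fun e => decide (e.1.length < m))

theorem rw'_cut {m n : ℕ} (hn : n < m) (T : List (List Bool × Bool)) :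
    rw' n (cut m T) = rw' n T := by
  unfold rw' cut
  rw [List.filter_filter]
  refine List.filter_congr fun w _ => ?_
  by_cases h : w.1.length = n
  · simp [h, hn]
  · simp [h]

theorem mistAll_cut (m : ℕ) : ∀ {T : List (List Bool × Bool)}, MistAll c T → MistAll c (cut m T)
  | [], _ => trivial
  | e :: T, h => by
    have h1 : cut m (e :: T) = if e.1.length < m then e :: cut m T else cut m T := by
      unfold cut
      rw [List.filter_cons]
      simp only [decide_eq_true_eq]
    rw [h1]
    split_ifs with h2
    · refine ⟨?_, mistAll_cut m h.2⟩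
      rw [rw'_cut h2]
      exact h.1
    · exact mistAll_cut m h.2

theorem comp_cut {m m' : ℕ} {T : List (List Bool × Bool)} (hT : Comp c A B m' T) (hm : m ≤ m') :
    Comp c A B m (cut m T) := by
  refine ⟨⟨fun e he => ?_, mistAll_cut m hT.1.2⟩, fun x hm1 => ?_⟩
  · unfold cut at he
    rw [List.mem_filter, decide_eq_true_eq] at he
    exact ⟨(hT.1.1 e he.1).1, he.2⟩
  · rw [rw'_cut hm1]
    exact hT.2 x (by omega)

/-- The answer to a query, according to a list, with exceptions: the strings in `F`. -/
def ans (c : List Bool → List Bool) (F Y : List (List Bool)) (T : List (List Bool × Bool))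
    (q : List Bool) : Bool :=
  if q ∈ F then decide (q ∈ Y) else decide (c (bits (rw' q.length T, q)) = [true])

/-- **Complete lists give separators.** -/
theorem sep_of_comp (hAB : Disjoint A B) {F Y : List (List Bool)}
    (hF : ∀ q ∈ F, (q ∈ A → q ∈ Y) ∧ (q ∈ B → q ∉ Y)) {m : ℕ} {T : List (List Bool × Bool)}
    (hT : Comp c A B m T) : ∃ S : Set (List Bool), IsSep A B S ∧ (∀ q ∈ F, (q ∈ S ↔ q ∈ Y)) ∧
      ∀ q : List Bool, q.length < m → (ans c F Y T q = true ↔ q ∈ S) := by
  classical
  refine ⟨{q | if q ∈ F then q ∈ Y else if q.length < m then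
    c (bits (rw' q.length T, q)) = [true] else q ∈ A}, ⟨fun q hq => ?_, fun q hq hq' => ?_⟩,
    fun q hq => ?_, fun q hq => ?_⟩
  · rw [Set.mem_ofPred_eq]
    split_ifs with h1 h2
    · exact (hF q h1).1 hq
    · exact (hT.2 q h2).1 hq
    · exact hq
  · rw [Set.mem_ofPred_eq] at hq'
    split_ifs at hq' with h1 h2
    · exact (hF q h1).2 hq hq'
    · exact (hT.2 q h2).2 hq hq'
    · exact Set.disjoint_left.1 hAB hq' hq
  · rw [Set.mem_ofPred_eq, if_pos hq]
  · rw [Set.mem_ofPred_eq]
    unfold ans
    by_cases h1 : q ∈ F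
    · simp [h1]
    · simp [h1, hq]

end Pool.Agent.TH682.DP
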