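import Pool.Agent.TH682.DP.Tab
import Pool.Agent.H550R2.Iso.Raw
import Pool.Agent.TH682.GD.Thm

/-!
# One algorithm for many separators
-/

set_option autoImplicit false

namespace Pool.Agent.TH682.DP

open Pool.Agent.NPC Pool.Agent.TH682.GD Pool.Agent.TH682.KD Pool.Agent.H660R2.NX

/-- The oracle given by a function. -/
def orc (s : List Bool → Bool) : Set (List Bool) := {q | s q = true}

theorem decides_congr {act : List Bool → List Bool} {S S' : Set (List Bool)} {R : ℕ} {P : Prop}
    (hS : ∀ g q : List Bool, g.length < R → act g = false :: q → (q ∈ S ↔ q ∈ S')) :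
    Decides act S R P → Decides act S' R P := by
  rintro ⟨h, h1, h2, h3, h4⟩
  refine ⟨h, h1, fun i hi => ?_, h3, h4⟩
  obtain ⟨q, h5, h6⟩ := h2 i hi
  exact ⟨q, h5, h6.trans (hS _ q (by rw [List.length_take]; omega) h5)⟩

theorem decides_mono {act : List Bool → List Bool} {S : Set (List Bool)} {R R' : ℕ} {P : Prop}
    (hR : R ≤ R') : Decides act S R P → Decides act S R' P := by
  rintro ⟨h, h1, h2⟩
  exact ⟨h, h1.trans hR, h2⟩

theorem isClosed_decides (act : List Bool → List Bool) (R : ℕ) (P : Prop) :
    IsClosed {s : List Bool → Bool | Decides act (orc s) R P} := by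
  rw [← isOpen_compl_iff, isOpen_iff_forall_mem_open]
  intro s hs
  set Q : Finset (List Bool) := (List.finite_length_lt Bool R).toFinset.image
    (fun g => (act g).tail) with hQ
  refine ⟨⋂ q ∈ Q, {s' : List Bool → Bool | s' q = s q}, fun s' hs' => ?_, ?_, ?_⟩
  · intro h
    refine hs (decides_congr (fun g q hg hq => ?_) h)
    have h1 : q ∈ Q := by
      rw [hQ, Finset.mem_image]
      exact ⟨g, by rw [Set.Finite.mem_toFinset]; exact hg, by rw [hq]; rfl⟩
    have h2 : s' q = s q := by
      simp only [Set.mem_iInter] at hs'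
      exact hs' q h1
    show s' q = true ↔ s q = true
    rw [h2]
  · exact isOpen_biInter_finset fun q _ =>
      show IsOpen ((fun s' : List Bool → Bool => s' q) ⁻¹' {s q}) from
        (isOpen_discrete _).preimage (continuous_apply q)
  · simp only [Set.mem_iInter]
    exact fun q _ => rfl

/-- **One algorithm for all separators with given values at finitely many strings.** -/
theorem unif {A B L : Set (List Bool)} (hAB : Disjoint A B) (h : ∀ S, IsSep A B S → InPT S L) :
    ∃ (f : List Bool → List Bool) (b : ℕ) (F Y : List (List Bool)), PolyTime f ∧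
      (∀ q ∈ F, (q ∈ A → q ∈ Y) ∧ (q ∈ B → q ∉ Y)) ∧
      ∀ S, IsSep A B S → (∀ q ∈ F, (q ∈ S ↔ q ∈ Y)) →
        ∀ x : List Bool, Decides (alg f x []) S (x.length ^ b + b) (x ∈ L) := by
  classical
  set X : Set (List Bool → Bool) := {s | (∀ q ∈ A, s q = true) ∧ ∀ q ∈ B, s q = false} with hX
  have hXc : IsClosed X := by
    have h1 : X = (⋂ q ∈ A, {s : List Bool → Bool | s q = true}) ∩
        (⋂ q ∈ B, {s : List Bool → Bool | s q = false}) := by
      ext s
      simp [hX]
    rw [h1]
    exact (isClosed_biInter fun q _ => isClosed_eq (continuous_apply q) continuous_const).inter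
      (isClosed_biInter fun q _ => isClosed_eq (continuous_apply q) continuous_const)
  have : CompactSpace X := isCompact_iff_compactSpace.1 hXc.isCompact
  have hsep : ∀ s ∈ X, IsSep A B (orc s) := fun s hs => ⟨fun q hq => hs.1 q hq, fun q hq hq' => by
    have h1 : s q = true := hq'
    rw [hs.2 q hq] at h1
    exact Bool.false_ne_true h1⟩
  have : Nonempty X := ⟨⟨fun q => decide (q ∈ A), fun q hq => by simpa using hq, fun q hq => by
    simpa using Set.disjoint_right.1 hAB hq⟩⟩
  have : Countable {D : List Bool → List Bool | PolyTime D} :=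
    Pool.Agent.NPC.PIso.countable_polyTime.to_subtype
  obtain ⟨⟨⟨f, hf⟩, b⟩, s0, hs0⟩ := nonempty_interior_of_iUnion_of_closed
    (X := X) (ι := {D : List Bool → List Bool | PolyTime D} × ℕ)
    (f := fun i => {s : X | ∀ x : List Bool,
      Decides (alg i.1.1 x []) (orc s.1) (x.length ^ i.2 + i.2) (x ∈ L)})
    (fun i => by
      have h1 : {s : X | ∀ x : List Bool,
          Decides (alg i.1.1 x []) (orc s.1) (x.length ^ i.2 + i.2) (x ∈ L)} =
          ⋂ x : List Bool, Subtype.val ⁻¹' {s : List Bool → Bool |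
            Decides (alg i.1.1 x []) (orc s) (x.length ^ i.2 + i.2) (x ∈ L)} := by
        ext s
        simp
      rw [h1]
      exact isClosed_iInter fun x => (isClosed_decides _ _ _).preimage continuous_subtype_val)
    (by
      rw [Set.eq_univ_iff_forall]
      rintro ⟨s, hs⟩
      obtain ⟨f, r, hf, hd⟩ := h (orc s) (hsep s hs)
      obtain ⟨b, hb⟩ := exists_pow_add_bound r
      exact Set.mem_iUnion.2 ⟨(⟨f, hf⟩, b), fun x => decides_mono (hb _) (hd x)⟩)
  obtain ⟨t, ht, hto, hst⟩ := mem_interior.1 hs0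
  obtain ⟨V, hV, rfl⟩ := isOpen_induced_iff.1 hto
  obtain ⟨I, u, h1, h2⟩ := isOpen_pi_iff.1 hV s0.1 hst
  refine ⟨f, b, I.toList, (I.filter (fun q => s0.1 q = true)).toList, hf, fun q hq => ⟨fun hA => ?_,
    fun hB hY => ?_⟩, fun S hS hF x => ?_⟩
  · rw [Finset.mem_toList, Finset.mem_filter]
    exact ⟨Finset.mem_toList.1 hq, s0.2.1 q hA⟩
  · rw [Finset.mem_toList, Finset.mem_filter, s0.2.2 q hB] at hY
    exact Bool.false_ne_true hY.2
  · have h3 : orc (fun q => decide (q ∈ S)) = S := by
      ext q
      simp [orc]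
    have h4 : (fun q => decide (q ∈ S)) ∈ X := ⟨fun q hq => by simpa using hS.1 hq, fun q hq => by
      simpa using hS.2 hq⟩
    have h5 : (fun q => decide (q ∈ S)) ∈ V := by
      refine h2 fun q hq => ?_
      have h6 : decide (q ∈ S) = s0.1 q := by
        have h7 := hF q (Finset.mem_toList.2 hq)
        rw [Finset.mem_toList, Finset.mem_filter] at h7
        rw [Bool.eq_iff_iff, decide_eq_true_eq, h7]
        exact ⟨fun h => h.2, fun h => ⟨hq, h⟩⟩
      show decide (q ∈ S) ∈ u q
      rw [h6]
      exact (h1 q hq).2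
    have h6 := ht (show (⟨_, h4⟩ : X) ∈ Subtype.val ⁻¹' V from h5) x
    rw [h3] at h6
    exact h6

end Pool.Agent.TH682.DP
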